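import Pool.Agent.H36.STAT.Adx

/-!
# Degrees (row 102 of `wst`)
-/

set_option autoImplicit false

namespace Pool.STAT

open Finset MvPolynomial

namespace Dgb

open Adx

theorem deg_of_coeff {F G : PN} (h : ∀ α, coeff α G ≠ 0 → coeff α F ≠ 0) :
    G.totalDegree ≤ F.totalDegree := by
  refine totalDegree_le_of_support_subset fun α hα => ?_
  exact MvPolynomial.mem_support_iff.2 (h α (MvPolynomial.mem_support_iff.1 hα))

theorem deg_whc (d : ℕ → ℕ) (r : ℕ) (F : PN) :
    (weightedHomogeneousComponent d r F).totalDegree ≤ F.totalDegree := by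
  refine deg_of_coeff fun α hα => ?_
  rw [coeff_whc] at hα
  split_ifs at hα with h
  · exact hα
  · exact absurd rfl hα

theorem deg_trw (d : ℕ → ℕ) (r : ℕ) (F : PN) : (trw d r F).totalDegree ≤ F.totalDegree := by
  refine deg_of_coeff fun α hα => ?_
  rw [coeff_trw] at hα
  split_ifs at hα with h
  · exact hα
  · exact absurd rfl hα

theorem deg_bind {F : PN} {f : ℕ → PN} {B : ℕ} (hf : ∀ k ∈ F.vars, (f k).totalDegree ≤ B) :
    (bind₁ f F).totalDegree ≤ F.totalDegree * B := by
  classical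
  have h1 : bind₁ f F = ∑ α ∈ F.support, bind₁ f (monomial α (coeff α F)) := by
    conv_lhs => rw [F.as_sum]
    rw [map_sum]
  rw [h1]
  refine totalDegree_finsetSum_le fun α hα => ?_
  rw [bind₁_monomial]
  refine (totalDegree_mul _ _).trans ?_
  rw [totalDegree_C, zero_add]
  refine (totalDegree_finsetProd _ _).trans ?_
  have h2 : ∀ i ∈ α.support, (f i ^ α i).totalDegree ≤ α i * B := by
    intro i hi
    refine (totalDegree_pow _ _).trans (Nat.mul_le_mul_left _ (hf i ?_))
    exact (mem_vars_iff_mem_support i).2 ⟨α, hα, hi⟩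
  refine (Finset.sum_le_sum h2).trans ?_
  rw [← Finset.sum_mul]
  exact Nat.mul_le_mul_right _ (le_totalDegree hα)

theorem deg_lieN {F : PN} {ξ : ℕ → PN} {m B : ℕ} (hF : F.vars ⊆ range m)
    (h : ∀ k < m, (ξ k).totalDegree ≤ B) : (lieN ξ F).totalDegree ≤ F.totalDegree + B := by
  rw [lieN_eq ξ hF]
  refine totalDegree_finsetSum_le fun k hk => (totalDegree_mul _ _).trans ?_
  have h1 := h k (Finset.mem_range.1 hk)
  have h2 : (pderiv k F).totalDegree ≤ F.totalDegree := by
    have h3 : MvPolynomial.pderiv k F =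
        ∑ α ∈ F.support, MvPolynomial.pderiv k (monomial α (coeff α F)) := by
      conv_lhs => rw [F.as_sum]
      rw [map_sum]
    rw [h3]
    refine totalDegree_finsetSum_le fun α hα => ?_
    rw [pderiv_monomial]
    refine (totalDegree_monomial_le _ _).trans (le_trans ?_ (le_totalDegree hα))
    exact Finsupp.sum_le_sum_index tsub_le_self (fun _ _ => monotone_id) (fun _ _ => rfl)
  omega

variable {d : ℕ → ℕ} {Φ : ℕ → PN} {n K : ℕ}

theorem deg_adp (hΦ : TriN Φ) (hK : ∀ i ≤ n, (Φ i).totalDegree ≤ K) (i : ℕ) (hi : i ≤ n) :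
    (adp d Φ i).totalDegree ≤ (K + 1) ^ (i + 1) := by
  induction i using Nat.strong_induction_on with
  | _ i ih =>
    rw [adp_eq hΦ]
    refine (totalDegree_add _ _).trans (max_le ?_ ?_)
    · rw [totalDegree_X]
      exact Nat.one_le_pow _ _ (Nat.succ_pos _)
    · refine (deg_trw _ _ _).trans ((deg_bind (B := (K + 1) ^ i) fun k hk => ?_).trans ?_)
      · have h1 := Finset.mem_range.1 (hΦ i hk)
        exact (ih k h1 (by omega)).trans (Nat.pow_le_pow_right (Nat.succ_pos _) (by omega))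
      · rw [pow_succ, mul_comm]
        exact Nat.mul_le_mul_left _ ((hK i hi).trans (Nat.le_succ _))

theorem deg_tinv {χ : ℕ → PN} {B : ℕ} (hχ : TriN fun i => χ i - X i)
    (hB : ∀ i ≤ n, (χ i).totalDegree ≤ B) (i : ℕ) (hi : i ≤ n) :
    (tinv χ i).totalDegree ≤ (B + 1 + 1) ^ (i + 1) := by
  induction i using Nat.strong_induction_on with
  | _ i ih =>
    rw [tinv_eq hχ]
    refine (totalDegree_sub _ _).trans (max_le ?_ ?_)
    · rw [totalDegree_X]
      exact Nat.one_le_pow _ _ (Nat.succ_pos _)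
    · refine (deg_bind (B := (B + 1 + 1) ^ i) fun k hk => ?_).trans ?_
      · have h1 := Finset.mem_range.1 (hχ i hk)
        exact (ih k h1 (by omega)).trans (Nat.pow_le_pow_right (Nat.succ_pos _) (by omega))
      · rw [pow_succ, mul_comm]
        refine Nat.mul_le_mul_left _ ((totalDegree_sub _ _).trans (max_le ?_ ?_))
        · exact (hB i hi).trans (by omega)
        · rw [totalDegree_X]
          omega

theorem deg_fld (hΦ : TriN Φ) (hK : ∀ i ≤ n, (Φ i).totalDegree ≤ K) (i : ℕ) (hi : i ≤ n) :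
    (fld d Φ i).totalDegree ≤ i * (K * (K + 1) ^ (n + 1)) := by
  induction i using Nat.strong_induction_on with
  | _ i ih =>
    rw [fld_eq hΦ]
    split_ifs with h0
    · rw [totalDegree_one]
      exact Nat.zero_le _
    · have h2 : (weightedHomogeneousComponent d (d i) (bind₁ (adp d Φ) (Φ i))).totalDegree ≤
          K * (K + 1) ^ (n + 1) := by
        refine (deg_whc _ _ _).trans ((deg_bind (B := (K + 1) ^ (n + 1)) fun k hk => ?_).trans
          (Nat.mul_le_mul_right _ (hK i hi)))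
        have h1 := Finset.mem_range.1 (hΦ i hk)
        exact (deg_adp hΦ hK k (by omega)).trans
          (Nat.pow_le_pow_right (Nat.succ_pos _) (by omega))
      refine (deg_lieN ((vars_whc _ _ _).trans (bind_adp_vars hΦ i))
        (B := (i - 1) * (K * (K + 1) ^ (n + 1))) fun k hk => ?_).trans ?_
      · exact (ih k hk (by omega)).trans (Nat.mul_le_mul_right _ (by omega))
      · obtain ⟨j, rfl⟩ : ∃ j, i = j + 1 := ⟨i - 1, by omega⟩
        rw [Nat.add_sub_cancel]
        calc _ ≤ K * (K + 1) ^ (n + 1) + j * (K * (K + 1) ^ (n + 1)) := Nat.add_le_add_right h2 _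
          _ = (j + 1) * (K * (K + 1) ^ (n + 1)) := by ring

theorem deg_nuc (hΦ : TriN Φ) (hK : ∀ i ≤ n, (Φ i).totalDegree ≤ K) (g : ℕ → ℕ) (i : ℕ)
    (hi : i ≤ n) : (nuc g Φ i).totalDegree ≤ (K + 1) ^ (i + 1) := by
  induction i using Nat.strong_induction_on with
  | _ i ih =>
    rw [nuc_eq hΦ]
    refine (totalDegree_add _ _).trans (max_le ?_ ?_)
    · refine (deg_bind (B := (K + 1) ^ i) fun k hk => ?_).trans ?_
      · have h1 := Finset.mem_range.1 (hΦ i hk)
        exact (ih k h1 (by omega)).trans (Nat.pow_le_pow_right (Nat.succ_pos _) (by omega))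
      · rw [pow_succ, mul_comm]
        exact Nat.mul_le_mul_left _ ((hK i hi).trans (Nat.le_succ _))
    · refine (totalDegree_mul _ _).trans ?_
      rw [totalDegree_C, totalDegree_X, zero_add]
      exact Nat.one_le_pow _ _ (Nat.succ_pos _)

end Dgb

/-- **Row 102 DGB.** -/
theorem dgb_thm : DgbStmt := by
  intro n K d _ _
  refine ⟨(K + 1) ^ (n + 1) + ((K + 1) ^ (n + 1) + 1 + 1) ^ (n + 1) +
    n * (K * (K + 1) ^ (n + 1)), fun Φ g hΦ hK i hi => ?_⟩
  have h1 := Dgb.deg_adp (d := d) hΦ hK i hi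
  have h2 := Dgb.deg_tinv (n := n) (B := (K + 1) ^ (n + 1)) (Adx.adp_sub (d := d) hΦ)
    (fun j hj => (Dgb.deg_adp hΦ hK j hj).trans
      (Nat.pow_le_pow_right (Nat.succ_pos _) (by omega))) i hi
  have h3 := Dgb.deg_fld (d := d) hΦ hK i hi
  have h4 := Dgb.deg_nuc hΦ hK g i hi
  have e1 : (K + 1) ^ (i + 1) ≤ (K + 1) ^ (n + 1) :=
    Nat.pow_le_pow_right (Nat.succ_pos _) (by omega)
  have e2 : ((K + 1) ^ (n + 1) + 1 + 1) ^ (i + 1) ≤ ((K + 1) ^ (n + 1) + 1 + 1) ^ (n + 1) :=
    Nat.pow_le_pow_right (Nat.succ_pos _) (by omega)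
  have e3 : i * (K * (K + 1) ^ (n + 1)) ≤ n * (K * (K + 1) ^ (n + 1)) :=
    Nat.mul_le_mul_right _ hi
  refine ⟨?_, ?_, ?_, ?_⟩ <;> omega

end Pool.STAT
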