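import Pool.Agent.H19.STAT.Sys

/-!
# Triangular systems (row 101 of `wst`)
-/

set_option autoImplicit false

namespace Pool.STAT

open Finset MvPolynomial

namespace Adx

/-! ### Fixed points of triangular maps -/

/-- A triangular map. -/
def TriS {α : Type*} (S : (ℕ → α) → ℕ → α) : Prop :=
  ∀ i f f', (∀ j < i, f j = f' j) → S f i = S f' i

theorem iter_tri {α : Type*} {S : (ℕ → α) → ℕ → α} (hS : TriS S) (m : ℕ) (f f' : ℕ → α) (i : ℕ)
    (hi : i < m) : S^[m] f i = S^[m] f' i := by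
  induction m generalizing i with
  | zero => exact absurd hi (Nat.not_lt_zero _)
  | succ m ih =>
    rw [Function.iterate_succ_apply', Function.iterate_succ_apply']
    exact hS i _ _ fun j hj => ih j (by omega)

theorem fixm_of_lt {α : Type*} [Zero α] {S : (ℕ → α) → ℕ → α} (hS : TriS S) {i m : ℕ}
    (hi : i < m) : S^[m] 0 i = fixm S i := by
  unfold fixm
  obtain ⟨k, rfl⟩ : ∃ k, m = (i + 1) + k := ⟨m - (i + 1), by omega⟩
  rw [Function.iterate_add_apply]
  exact iter_tri hS _ _ _ _ (Nat.lt_succ_self _)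

theorem fixm_eq {α : Type*} [Zero α] {S : (ℕ → α) → ℕ → α} (hS : TriS S) (i : ℕ) :
    fixm S i = S (fixm S) i := by
  rw [hS i (fixm S) (S^[i] 0) fun j hj => (fixm_of_lt hS hj).symm,
    ← Function.iterate_succ_apply' S i]
  rfl

/-! ### Variables -/

theorem vars_zero (m : ℕ) : (0 : PN).vars ⊆ range m := by
  rw [vars_0]
  exact Finset.empty_subset _

theorem vars_C' (a : ℝ) (m : ℕ) : (C a : PN).vars ⊆ range m := by
  rw [vars_C]
  exact Finset.empty_subset _

theorem vars_X' {i m : ℕ} (h : i < m) : (X i : PN).vars ⊆ range m := by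
  rw [vars_X, Finset.singleton_subset_iff, Finset.mem_range]
  exact h

theorem vars_add' {F G : PN} {m : ℕ} (hF : F.vars ⊆ range m) (hG : G.vars ⊆ range m) :
    (F + G).vars ⊆ range m := by
  classical
  exact (vars_add_subset _ _).trans (Finset.union_subset hF hG)

theorem vars_mul' {F G : PN} {m : ℕ} (hF : F.vars ⊆ range m) (hG : G.vars ⊆ range m) :
    (F * G).vars ⊆ range m := by
  classical
  exact (vars_mul _ _).trans (Finset.union_subset hF hG)

theorem vars_neg' {F : PN} {m : ℕ} (hF : F.vars ⊆ range m) : (-F).vars ⊆ range m := by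
  rwa [vars_neg]

theorem vars_sub' {F G : PN} {m : ℕ} (hF : F.vars ⊆ range m) (hG : G.vars ⊆ range m) :
    (F - G).vars ⊆ range m := by
  rw [sub_eq_add_neg]
  exact vars_add' hF (vars_neg' hG)

theorem vars_sum' {ι : Type*} (s : Finset ι) (f : ι → PN) {m : ℕ}
    (h : ∀ i ∈ s, (f i).vars ⊆ range m) : (∑ i ∈ s, f i).vars ⊆ range m := by
  classical
  induction s using Finset.induction_on with
  | empty =>
    rw [Finset.sum_empty]
    exact vars_zero _
  | insert a s ha ih =>
    rw [Finset.sum_insert ha]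
    exact vars_add' (h a (Finset.mem_insert_self _ _))
      (ih fun i hi => h i (Finset.mem_insert_of_mem hi))

theorem vars_of_coeff {F G : PN} (h : ∀ α, coeff α G ≠ 0 → coeff α F ≠ 0) :
    G.vars ⊆ F.vars := by
  intro k hk
  obtain ⟨α, hα, hkα⟩ := (mem_vars_iff_mem_support k).1 hk
  exact (mem_vars_iff_mem_support k).2
    ⟨α, MvPolynomial.mem_support_iff.2 (h α (MvPolynomial.mem_support_iff.1 hα)), hkα⟩

theorem coeff_whc (d : ℕ → ℕ) (r : ℕ) (F : PN) (α : ℕ →₀ ℕ) :
    coeff α (weightedHomogeneousComponent d r F) =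
      if Finsupp.weight d α = r then coeff α F else 0 :=
  coeff_weightedHomogeneousComponent _ _ _

theorem vars_whc (d : ℕ → ℕ) (r : ℕ) (F : PN) :
    (weightedHomogeneousComponent d r F).vars ⊆ F.vars := by
  refine vars_of_coeff fun α hα => ?_
  rw [coeff_whc] at hα
  split_ifs at hα with h
  · exact hα
  · exact absurd rfl hα

theorem coeff_trw (d : ℕ → ℕ) (r : ℕ) (F : PN) (α : ℕ →₀ ℕ) :
    coeff α (trw d r F) = if Finsupp.weight d α < r then coeff α F else 0 := by
  classical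
  unfold trw
  rw [coeff_sum]
  simp_rw [coeff_whc]
  rw [Finset.sum_ite_eq (range r) (Finsupp.weight d α)]
  simp only [Finset.mem_range]

theorem vars_trw (d : ℕ → ℕ) (r : ℕ) (F : PN) : (trw d r F).vars ⊆ F.vars := by
  refine vars_of_coeff fun α hα => ?_
  rw [coeff_trw] at hα
  split_ifs at hα with h
  · exact hα
  · exact absurd rfl hα

theorem vars_bind' {F : PN} {f : ℕ → PN} {m m' : ℕ} (hF : F.vars ⊆ range m)
    (hf : ∀ k < m, (f k).vars ⊆ range m') : (bind₁ f F).vars ⊆ range m' := by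
  classical
  intro k hk
  obtain ⟨i, hi, hki⟩ := mem_vars_bind₁ f F hk
  exact hf i (Finset.mem_range.1 (hF hi)) hki

theorem bind_congr {F : PN} {f g : ℕ → PN} (h : ∀ k ∈ F.vars, f k = g k) :
    bind₁ f F = bind₁ g F :=
  eval₂Hom_congr' rfl (fun i hi _ => h i hi) rfl

theorem vars_pderiv (F : PN) (k : ℕ) : (pderiv k F).vars ⊆ F.vars := by
  classical
  intro j hj
  have h1 : MvPolynomial.pderiv k F =
      ∑ α ∈ F.support, MvPolynomial.pderiv k (monomial α (coeff α F)) := by
    conv_lhs => rw [F.as_sum]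
    rw [map_sum]
  rw [h1] at hj
  obtain ⟨α, hα, hj2⟩ : ∃ α ∈ F.support,
      j ∈ (MvPolynomial.pderiv k (monomial α (coeff α F))).vars := by
    have := vars_sum_subset F.support
      (fun α => MvPolynomial.pderiv k (monomial α (coeff α F))) hj
    rwa [Finset.mem_biUnion] at this
  rw [pderiv_monomial] at hj2
  obtain ⟨β, hβ, hjβ⟩ := (mem_vars_iff_mem_support j).1 hj2
  have h2 := Finset.mem_singleton.1 (support_monomial_subset hβ)
  rw [h2] at hjβ
  refine (mem_vars_iff_mem_support j).2 ⟨α, hα, ?_⟩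
  rw [Finsupp.mem_support_iff] at hjβ ⊢
  intro h3
  apply hjβ
  rw [Finsupp.tsub_apply, h3, Nat.zero_sub]

/-! ### The derivation -/

theorem lieN_X (ξ : ℕ → PN) (i : ℕ) : lieN ξ (X i) = ξ i := mkDerivation_X _ _ _

theorem lieN_C (ξ : ℕ → PN) (a : ℝ) : lieN ξ (C a) = 0 := derivation_C _ _

theorem lieN_congr {F : PN} {ξ ξ' : ℕ → PN} (h : ∀ k ∈ F.vars, ξ k = ξ' k) :
    lieN ξ F = lieN ξ' F := by
  refine derivation_eq_of_forall_mem_vars fun i hi => ?_
  rw [lieN_X, lieN_X, h i hi]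

theorem dsum_apply (s : Finset ℕ) (D : ℕ → Derivation ℝ PN PN) (F : PN) :
    (∑ k ∈ s, D k) F = ∑ k ∈ s, D k F := by
  classical
  induction s using Finset.induction_on with
  | empty => simp
  | insert a s ha ih => rw [Finset.sum_insert ha, Finset.sum_insert ha, Derivation.add_apply, ih]

theorem eval_bind (b : ℕ → ℝ) (f : ℕ → PN) (F : PN) :
    eval b (bind₁ f F) = eval (fun i => eval b (f i)) F :=
  eval₂Hom_bind₁ (RingHom.id ℝ) b f F

theorem eval_congr' {F : PN} {b b' : ℕ → ℝ} (h : ∀ i ∈ F.vars, b i = b' i) :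
    eval b F = eval b' F := eval₂Hom_congr' rfl (fun i hi _ => h i hi) rfl

theorem lieN_eq (ξ : ℕ → PN) {F : PN} {m : ℕ} (hF : F.vars ⊆ range m) :
    lieN ξ F = ∑ k ∈ range m, ξ k * pderiv k F := by
  classical
  have h1 : lieN ξ F = (∑ k ∈ range m, ξ k • (pderiv k : Derivation ℝ PN PN)) F := by
    refine derivation_eq_of_forall_mem_vars fun i hi => ?_
    rw [lieN_X, dsum_apply, Finset.sum_eq_single i]
    · rw [Derivation.smul_apply, pderiv_X_self, smul_eq_mul, mul_one]
    · intro b _ hb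
      rw [Derivation.smul_apply, pderiv_X_of_ne hb.symm, smul_zero]
    · intro h
      exact absurd (hF hi) h
  rw [h1, dsum_apply]
  exact Finset.sum_congr rfl fun k _ => by rw [Derivation.smul_apply, smul_eq_mul]

theorem vars_lieN {F : PN} {ξ : ℕ → PN} {m m' : ℕ} (hF : F.vars ⊆ range m) (hm : m ≤ m')
    (h : ∀ k < m, (ξ k).vars ⊆ range m') : (lieN ξ F).vars ⊆ range m' := by
  rw [lieN_eq ξ hF]
  refine vars_sum' _ _ fun k hk => vars_mul' (h k (Finset.mem_range.1 hk)) ?_
  exact ((vars_pderiv F k).trans hF).trans (Finset.range_subset_range.2 hm)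

/-- The derivation lowers the weight by one. -/
theorem lieN_hom {d : ℕ → ℕ} (hd : ∀ i, 1 ≤ d i) {ξ : ℕ → PN} {F : PN} {e : ℕ}
    (hξ : ∀ i ∈ F.vars, (ξ i).IsWeightedHomogeneous d (d i - 1))
    (hF : F.IsWeightedHomogeneous d e) : (lieN ξ F).IsWeightedHomogeneous d (e - 1) := by
  have h1 : lieN ξ F = ∑ m ∈ F.support, lieN ξ (monomial m (F.coeff m)) := by
    conv_lhs => rw [F.as_sum]
    rw [map_sum]
  rw [h1]
  refine IsWeightedHomogeneous.sum _ _ _ fun m hm => ?_
  have hm' : Finsupp.weight d m = e := hF (MvPolynomial.mem_support_iff.1 hm)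
  unfold lieN
  rw [mkDerivation_monomial, smul_eq_C_mul, ← zero_add (e - 1)]
  refine (isWeightedHomogeneous_C d _).mul ?_
  rw [Finsupp.sum]
  refine IsWeightedHomogeneous.sum _ _ _ fun i hi => ?_
  have hmi : 1 ≤ m i := Nat.one_le_iff_ne_zero.2 (Finsupp.mem_support_iff.1 hi)
  have h2 : m - Finsupp.single i 1 + Finsupp.single i 1 = m :=
    tsub_add_cancel_of_le (Finsupp.single_le_iff.2 hmi)
  have h3 : Finsupp.weight d (m - Finsupp.single i 1) + d i = e := by
    rw [← hm']
    conv_rhs => rw [← h2]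
    rw [map_add, Finsupp.weight_single, one_smul]
  have h4 : e - 1 = (e - d i) + (d i - 1) := by
    have := hd i
    omega
  rw [smul_eq_mul, h4]
  exact (isWeightedHomogeneous_monomial _ _ _ (by omega)).mul
    (hξ i ((mem_vars_iff_mem_support i).2 ⟨m, hm, hi⟩))

/-! ### The adapted coordinates -/

variable {d : ℕ → ℕ} {Φ : ℕ → PN}

theorem adp_tri (hΦ : TriN Φ) : TriS fun χ i => X i + trw d (d i) (bind₁ χ (Φ i)) := by
  intro i f f' h
  beta_reduce
  rw [bind_congr fun k hk => h k (Finset.mem_range.1 (hΦ i hk))]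

theorem adp_eq (hΦ : TriN Φ) (i : ℕ) :
    adp d Φ i = X i + trw d (d i) (bind₁ (adp d Φ) (Φ i)) := fixm_eq (adp_tri hΦ) i

theorem adp_vars (hΦ : TriN Φ) (i : ℕ) : (adp d Φ i).vars ⊆ range (i + 1) := by
  induction i using Nat.strong_induction_on with
  | _ i ih =>
    rw [adp_eq hΦ]
    refine vars_add' (vars_X' (Nat.lt_succ_self _)) ((vars_trw _ _ _).trans ?_)
    exact vars_bind' (hΦ i) fun k hk =>
      (ih k hk).trans (Finset.range_subset_range.2 (by omega))

theorem bind_adp_vars (hΦ : TriN Φ) (i : ℕ) : (bind₁ (adp d Φ) (Φ i)).vars ⊆ range i :=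
  vars_bind' (hΦ i) fun k hk => (adp_vars hΦ k).trans (Finset.range_subset_range.2 (by omega))

theorem adp_sub (hΦ : TriN Φ) : TriN (fun i => adp d Φ i - X i) := by
  intro i
  beta_reduce
  rw [adp_eq hΦ, add_sub_cancel_left]
  exact (vars_trw _ _ _).trans (bind_adp_vars hΦ i)

/-! ### The inverse -/

variable {χ : ℕ → PN}

theorem tinv_tri (hχ : TriN fun i => χ i - X i) : TriS fun Θ i => X i - bind₁ Θ (χ i - X i) := by
  intro i f f' h
  beta_reduce
  rw [bind_congr fun k hk => h k (Finset.mem_range.1 (hχ i hk))]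

theorem tinv_eq (hχ : TriN fun i => χ i - X i) (i : ℕ) :
    tinv χ i = X i - bind₁ (tinv χ) (χ i - X i) := fixm_eq (tinv_tri hχ) i

theorem tinv_vars (hχ : TriN fun i => χ i - X i) (i : ℕ) : (tinv χ i).vars ⊆ range (i + 1) := by
  induction i using Nat.strong_induction_on with
  | _ i ih =>
    rw [tinv_eq hχ]
    refine vars_sub' (vars_X' (Nat.lt_succ_self _)) (vars_bind' (hχ i) fun k hk => ?_)
    exact (ih k hk).trans (Finset.range_subset_range.2 (by omega))

theorem tinv_sub (hχ : TriN fun i => χ i - X i) : TriN (fun i => tinv χ i - X i) := by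
  intro i
  beta_reduce
  rw [tinv_eq hχ]
  have e : X i - bind₁ (tinv χ) (χ i - X i) - X i = -bind₁ (tinv χ) (χ i - X i) := by ring
  rw [e]
  exact vars_neg' (vars_bind' (hχ i) fun k hk =>
    (tinv_vars hχ k).trans (Finset.range_subset_range.2 (by omega)))

theorem bind_tinv (hχ : TriN fun i => χ i - X i) (i : ℕ) : bind₁ (tinv χ) (χ i) = X i := by
  have h1 : bind₁ (tinv χ) (χ i) = bind₁ (tinv χ) (χ i - X i) + tinv χ i := by
    rw [map_sub, bind₁_X_right]
    ring
  rw [h1]
  conv_lhs => rw [tinv_eq hχ i]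
  ring

theorem tinv_bind (hχ : TriN fun i => χ i - X i) (i : ℕ) : bind₁ χ (tinv χ i) = X i := by
  induction i using Nat.strong_induction_on with
  | _ i ih =>
    rw [tinv_eq hχ i, map_sub, bind₁_X_right, bind₁_bind₁]
    rw [bind_congr (g := X) fun k hk => ih k (Finset.mem_range.1 (hχ i hk))]
    have h1 : bind₁ (X : ℕ → PN) (χ i - X i) = χ i - X i := by
      rw [bind₁_X_left]
      rfl
    rw [h1]
    ring

/-! ### The field -/

theorem fld_tri (hΦ : TriN Φ) : TriS fun (ξ : ℕ → PN) i => if i = 0 then 1 else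
    lieN ξ (weightedHomogeneousComponent d (d i) (bind₁ (adp d Φ) (Φ i))) := by
  intro i f f' h
  beta_reduce
  split_ifs with h0
  · rfl
  · exact lieN_congr fun k hk =>
      h k (Finset.mem_range.1 (bind_adp_vars hΦ i (vars_whc _ _ _ hk)))

theorem fld_eq (hΦ : TriN Φ) (i : ℕ) : fld d Φ i = if i = 0 then 1 else
    lieN (fld d Φ) (weightedHomogeneousComponent d (d i) (bind₁ (adp d Φ) (Φ i))) :=
  fixm_eq (fld_tri hΦ) i

theorem fld_zero (hΦ : TriN Φ) : fld d Φ 0 = 1 := by
  rw [fld_eq hΦ, if_pos rfl]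

theorem fld_pos (hΦ : TriN Φ) {i : ℕ} (hi : 1 ≤ i) : fld d Φ i =
    lieN (fld d Φ) (weightedHomogeneousComponent d (d i) (bind₁ (adp d Φ) (Φ i))) := by
  conv_lhs => rw [fld_eq hΦ, if_neg (by omega)]

theorem fld_vars (hΦ : TriN Φ) : TriN (fld d Φ) := by
  intro i
  induction i using Nat.strong_induction_on with
  | _ i ih =>
    rw [fld_eq hΦ]
    split_ifs with h0
    · exact vars_C' 1 _
    · exact vars_lieN ((vars_whc _ _ _).trans (bind_adp_vars hΦ i)) le_rfl fun k hk =>
        (ih k hk).trans (Finset.range_subset_range.2 hk.le)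

theorem fld_hom (hΦ : TriN Φ) (h0 : d 0 = 1) (hd : ∀ i, 1 ≤ d i) (i : ℕ) :
    (fld d Φ i).IsWeightedHomogeneous d (d i - 1) := by
  induction i using Nat.strong_induction_on with
  | _ i ih =>
    rw [fld_eq hΦ]
    split_ifs with h1
    · rw [h1, h0]
      exact isWeightedHomogeneous_one ℝ d
    · exact lieN_hom hd (fun k hk => ih k (Finset.mem_range.1
        (bind_adp_vars hΦ i (vars_whc _ _ _ hk))))
        (weightedHomogeneousComponent_isWeightedHomogeneous _ _)

/-! ### The natural coordinates -/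

theorem nuc_tri (hΦ : TriN Φ) (g : ℕ → ℕ) : TriS fun (ν : ℕ → PN) i =>
    bind₁ ν (Φ i) + C (1 / (2 : ℝ) ^ g i) * X i := by
  intro i f f' h
  beta_reduce
  rw [bind_congr fun k hk => h k (Finset.mem_range.1 (hΦ i hk))]

theorem nuc_eq (hΦ : TriN Φ) (g : ℕ → ℕ) (i : ℕ) :
    nuc g Φ i = bind₁ (nuc g Φ) (Φ i) + C (1 / (2 : ℝ) ^ g i) * X i := fixm_eq (nuc_tri hΦ g) i

theorem nuc_vars (hΦ : TriN Φ) (g : ℕ → ℕ) (i : ℕ) : (nuc g Φ i).vars ⊆ range (i + 1) := by
  induction i using Nat.strong_induction_on with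
  | _ i ih =>
    rw [nuc_eq hΦ]
    refine vars_add' (vars_bind' (hΦ i) fun k hk => ?_)
      (vars_mul' (vars_C' _ _) (vars_X' (Nat.lt_succ_self _)))
    exact (ih k hk).trans (Finset.range_subset_range.2 (by omega))

theorem nuc_eval (hΦ : TriN Φ) (g : ℕ → ℕ) (b : ℕ → ℝ) (i : ℕ) :
    eval (fun j => (2 : ℝ) ^ g j * (b j - eval b (Φ j))) (nuc g Φ i) = b i := by
  induction i using Nat.strong_induction_on with
  | _ i ih =>
    rw [nuc_eq hΦ, map_add, map_mul, eval_C, eval_X]
    have h1 : eval (fun j => (2 : ℝ) ^ g j * (b j - eval b (Φ j))) (bind₁ (nuc g Φ) (Φ i)) =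
        eval b (Φ i) := by
      rw [eval_bind]
      exact eval_congr' fun k hk => ih k (Finset.mem_range.1 (hΦ i hk))
    rw [h1]
    have h2 : (2 : ℝ) ^ g i ≠ 0 := by positivity
    field_simp
    ring

end Adx

end Pool.STAT
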