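import Pool.Agent.H71.GEN.Lip
import Pool.Agent.H71.GEN.Nst

/-!
# The first coordinate has no closed label

A closed label of the active coordinate `k` over the time alone, on windows of length `2 ^ (-w J)`
and with precision `2 ^ (-(w + h) J)`, gives the digits of the velocity `k` as a function of the
point.
-/

set_option autoImplicit false

namespace Pool.GEN

open Finset Real MvPolynomial
open Pool.Agent.H49.Ent Pool.Agent.H32.Dense Pool.STK Pool.KA Pool.KSAT Pool.K2S Pool.PB Pool.S6C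
open Pool.FLF (Fam.sub)

variable {m n J : ℕ}

/-- The polynomial depends on the time only. -/
def DepT {m : ℕ} (G : MvPolynomial (Option (Fin m)) ℝ) : Prop :=
  ∀ b b' : Option (Fin m) → ℝ, b none = b' none → eval b G = eval b' G

/-- The derivative in the time also depends on the time only. -/
theorem DepT.pd {G : MvPolynomial (Option (Fin m)) ℝ} (h : DepT G)
    {b b' : Option (Fin m) → ℝ} (hb : b none = b' none) :
    eval b (pderiv none G) = eval b' (pderiv none G) := by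
  classical
  obtain ⟨g, hg⟩ : ∃ g : (Option (Fin m) → ℝ) → Option (Fin m) → Polynomial ℝ, g = fun b j =>
      if j = none then Polynomial.X else Polynomial.C (b j) := ⟨_, rfl⟩
  have hge : ∀ (b : Option (Fin m) → ℝ) (Q : MvPolynomial (Option (Fin m)) ℝ) (t : ℝ),
      (MvPolynomial.aeval (g b) Q).eval t = MvPolynomial.eval (Function.update b none t) Q := by
    intro b Q t
    rw [Pool.KBX.eval_aeval_poly]
    congr 1
    congr 1
    funext j
    rw [hg]
    by_cases hj : j = none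
    · subst hj
      simp
    · simp [hj]
  have hc : MvPolynomial.aeval (g b) G = MvPolynomial.aeval (g b') G := by
    refine Polynomial.funext fun t => ?_
    rw [hge, hge]
    exact h _ _ (by simp)
  have hd : ∀ b, Polynomial.derivative (MvPolynomial.aeval (g b) G) =
      MvPolynomial.aeval (g b) (pderiv none G) := by
    intro b
    rw [der_aevalσ, Finset.sum_eq_single none]
    · have h2 : Polynomial.derivative (g b none) = 1 := by
        rw [hg]
        simp
      rw [h2, mul_one]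
    · intro j _ hj
      have h2 : Polynomial.derivative (g b j) = 0 := by
        rw [hg]
        simp [hj]
      rw [h2, mul_zero]
    · intro hk
      exact absurd (Finset.mem_univ _) hk
  have h1 := congrArg Polynomial.derivative hc
  rw [hd, hd] at h1
  have h2 := congrArg (Polynomial.eval (b none)) h1
  rw [hge, hge, Function.update_eq_self, hb, Function.update_eq_self] at h2
  exact h2

theorem DepT.pd_some {G : MvPolynomial (Option (Fin m)) ℝ} (h : DepT G) (i : Fin m)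
    (b : Option (Fin m) → ℝ) : eval b (pderiv (some i) G) = 0 := by
  classical
  exact pderiv_dep _ _ (fun b b' hb => h b b' (hb none (by simp))) b

/-- A closed label of the coordinate `k` over the time alone: positions only. -/
def LbT (F : Fam m J) (k : Fin m) (K w P : ℕ) (A : F.Ω → Prop) : Prop :=
  ∃ (V : Type) (z : PtT F → V) (z' : LnT F → V) (G : V → MvPolynomial (Option (Fin m)) ℝ),
    (∀ v, (G v).totalDegree ≤ K) ∧ (∀ v, DepT (G v)) ∧
    (∀ ω, A ω → z (ptr F J ω) = z' (slam F w ω)) ∧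
    ∀ ω, A ω → |F.x ω k - eval (bt F ω) (G (z' (slam F w ω)))| ≤ 1 / 2 ^ P

/-- A label over the empty set gives a label over the time alone. -/
theorem Lb.lbT {F : Fam m J} {k : Fin m} {K e w ρ P : ℕ} {A : F.Ω → Prop}
    (h : Lb F ∅ k K e J w ρ P A) : LbT F k K w P A := by
  obtain ⟨V, z, z', G, h⟩ := h
  exact ⟨V, z, z', G, h.deg, fun v b b' hb => h.dep v b b' hb (by simp), h.cls, h.pos⟩

/-- **Velocity.** On half of the event, the velocity is the derivative of the label. -/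
theorem lbT_vel (m K : ℕ) : ∃ C : ℝ, 1 ≤ C ∧ ∀ (J : ℕ) (F : Fam m J) (k : Fin m)
    (A : F.Ω → Prop) (hA : 0 < Pe F.p A) (w P : ℕ) (θ : ℝ), w ≤ J → 0 ≤ θ →
    (Fam.sub F A hA).Tm θ → C * (θ + 1) ≤ ((J : ℝ) - w) * Real.log 2 → LbT F k K w P A →
    ∃ B : F.Ω → Prop, Sub B A ∧ Pe F.p A / 2 ≤ Pe F.p B ∧ ∀ ω ω', B ω → B ω' →
      ptr F J ω = ptr F J ω' →
      |F.d ω k - F.d ω' k| ≤ 2 * (Real.exp (C * (θ + 1)) * 2 ^ w / 2 ^ P) := by
  classical
  obtain ⟨C, hC, hvel⟩ := vel_of_pos m (K + 1)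
  refine ⟨C, hC, ?_⟩
  rintro J F k A hA w P θ hw hθ hTm hJ ⟨V, z, z', G, hdeg, hdep, hcls, hpos⟩
  obtain ⟨H, hH⟩ : ∃ H : LnT F → Fin m → MvPolynomial (Option (Fin m)) ℝ, ∀ s j, H s j =
      if j = k then G (z' s) else MvPolynomial.C (s.1.1 j) +
        MvPolynomial.C (s.1.2 j) * X none := ⟨_, fun _ _ => rfl⟩
  obtain ⟨B, hB, hPB, hv⟩ := hvel J F A hA w H (1 / 2 ^ P) θ hw (by
      intro s j
      rw [hH]
      split_ifs
      · exact (hdeg _).trans (Nat.le_succ _)
      · refine (totalDegree_add _ _).trans (max_le ?_ ?_)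
        · rw [totalDegree_C]
          exact Nat.zero_le _
        · refine (totalDegree_mul _ _).trans ?_
          rw [totalDegree_C, totalDegree_X]
          omega) (by positivity) hθ hTm hJ (by
      intro ω hω j
      rw [hH]
      split_ifs with hj
      · rw [hj]
        exact hpos ω hω
      · have h1 : F.x ω j = F.u ω j + F.t ω * F.d ω j := rfl
        have h2 : eval (bt F ω) (MvPolynomial.C ((slam F w ω).1.1 j) +
            MvPolynomial.C ((slam F w ω).1.2 j) * X none) =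
            F.u ω j + F.d ω j * F.t ω := by
          rw [map_add, map_mul, eval_C, eval_C, eval_X]
          rfl
        rw [h1, h2]
        have h3 : F.u ω j + F.t ω * F.d ω j - (F.u ω j + F.d ω j * F.t ω) = 0 := by ring
        rw [h3, abs_zero]
        positivity)
  refine ⟨B, hB, hPB, fun ω ω' hω hω' hpt => ?_⟩
  have key : ∀ ω, B ω → |F.d ω k - eval (bt F ω) (pderiv none (G (z' (slam F w ω))))| ≤
      Real.exp (C * (θ + 1)) * 2 ^ w / 2 ^ P := by
    intro ω hω
    have h1 := hv ω hω k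
    rw [hH, if_pos rfl, Fintype.sum_option] at h1
    have h2 : ∑ i : Fin m, bd F ω (some i) *
        eval (bt F ω) (pderiv (some i) (G (z' (slam F w ω)))) = 0 :=
      Finset.sum_eq_zero fun i _ => by rw [(hdep _).pd_some, mul_zero]
    have h3 : bd F ω none = 1 := rfl
    rw [h2, h3, one_mul, add_zero] at h1
    refine h1.trans (le_of_eq ?_)
    ring
  have h1 := key ω hω
  have h2 := key ω' hω'
  have hz : z' (slam F w ω) = z' (slam F w ω') := by
    rw [← hcls ω (hB ω hω), ← hcls ω' (hB ω' hω'), hpt]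
  have ht : bt F ω none = bt F ω' none := by
    have h3 : F.T ω = F.T ω' := congrArg (fun s => s.2.1) hpt
    show F.t ω = F.t ω'
    unfold Fam.t
    rw [h3]
  rw [← hz, ← (hdep _).pd ht] at h2
  rw [abs_le] at h1 h2 ⊢
  constructor <;> linarith [h1.1, h1.2, h2.1, h2.2]

/-- **The digits of the velocity are a function of the point.** -/
theorem lbT_ent (F : Fam m J) (k : Fin m) {B : F.Ω → Prop} (hB : 0 < Pe F.p B) {r r₀ : ℕ} {δ : ℝ}
    (hδ : 2 ^ r * δ ≤ 1)
    (h : ∀ ω ω', B ω → B ω' → ptr F J ω = ptr F J ω' → |F.d ω k - F.d ω' k| ≤ 2 * δ) :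
    CH (Pool.Agent.H49.Ent.cond F.p B True) (fun ω => F.D r ω k)
      (fun ω => (F.D r₀ ω, (F.X J ω, F.W ω))) ≤ Real.log 7 := by
  have hq : IsLaw (Pool.Agent.H49.Ent.cond F.p B True) := isLaw_cond F.isLaw hB
  have h1 := CH_le_vec (d := 1) hq.nonneg hq.sum_one (fun ω _ => F.D r ω k)
    (fun ω => (F.D r₀ ω, (F.X J ω, F.W ω))) (fun _ => 3) (by
      intro ω ω' hω hω' hh _
      have b1 : B ω := of_eq_true ((cond_pos_iff F.isLaw.nonneg B True ω).1 hω).2
      have b2 : B ω' := of_eq_true ((cond_pos_iff F.isLaw.nonneg B True ω').1 hω').2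
      have hpt : ptr F J ω = ptr F J ω' := (Prod.ext_iff.1 hh).2
      have h2 := h ω ω' b1 b2 hpt
      have hM : (0 : ℝ) < 2 ^ r := by positivity
      have h3 : |(2 : ℝ) ^ r * F.d ω k - 2 ^ r * F.d ω' k| ≤ 2 := by
        rw [← mul_sub, abs_mul, abs_of_pos hM]
        calc _ ≤ (2 : ℝ) ^ r * (2 * δ) := mul_le_mul_of_nonneg_left h2 hM.le
          _ = 2 * (2 ^ r * δ) := by ring
          _ ≤ 2 := by linarith
      have f1 := Int.floor_le ((2 : ℝ) ^ r * F.d ω k)
      have f2 := Int.lt_floor_add_one ((2 : ℝ) ^ r * F.d ω k)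
      have f3 := Int.floor_le ((2 : ℝ) ^ r * F.d ω' k)
      have f4 := Int.lt_floor_add_one ((2 : ℝ) ^ r * F.d ω' k)
      show |((⌊(2 : ℝ) ^ r * F.d ω k⌋ - ⌊(2 : ℝ) ^ r * F.d ω' k⌋ : ℤ) : ℝ)| ≤ 3
      push_cast
      rw [abs_le] at h3 ⊢
      constructor <;> linarith [h3.1, h3.2])
  rw [Ex_const hq.sum_one] at h1
  have h2 : CH (Pool.Agent.H49.Ent.cond F.p B True) (fun ω => F.D r ω k)
      (fun ω => (F.D r₀ ω, (F.X J ω, F.W ω))) ≤
      CH (Pool.Agent.H49.Ent.cond F.p B True) (fun ω (_ : Fin 1) => F.D r ω k)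
      (fun ω => (F.D r₀ ω, (F.X J ω, F.W ω))) :=
    CH_mono_left hq.nonneg fun ω ω' _ _ h => congrFun (Prod.ext_iff.mp h).1 0
  have h3 : ((1 : ℕ) : ℝ) * Real.log (2 * 3 + 1) = Real.log 7 := by norm_num
  linarith

/-- **The active coordinate has no closed label over the time alone.** -/
theorem no_lbT {S : PCl n} {C₀ : ℝ} (hC₀ : 0 ≤ C₀)
    (htm : ∀ (τ : ℝ) (J : ℕ) (F : Fam n J) (A : F.Ω → Prop), 0 < τ → S.St τ J F A →
      0 < Pe F.p A ∧ ∀ h : IsLaw (Pool.Agent.H49.Ent.cond F.p A True),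
        (F.res A True h).Tm (C₀ * τ * J))
    {N : ℚ → ℚ → ℝ} {al : ℝ} (hal : 0 < al) (hN : ActQ N al) {k : Fin n} (hB : ActB N S k)
    {w h : ℝ} (hw : 0 ≤ w) (hh : 0 < h) (hwh : w + h ≤ 1) (K : ℕ) :
    Bas S (fun J F A => ¬ LbT F k K ⌊w * J⌋₊ ⌊(w + h) * J⌋₊ A) := by
  have hl2 : 0 < Real.log 2 := Real.log_pos (by norm_num)
  -- the scale
  obtain ⟨g₀, hg₀, hact⟩ := hN (min (al / 2) (1 / 2)) (by positivity)
  obtain ⟨g, hg1, hg2⟩ : ∃ g : ℚ, (0 : ℝ) < g ∧ (g : ℝ) < min g₀ (min (h / 4) 1) :=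
    exists_rat_btwn (by positivity)
  have hg0 : (0 : ℚ) < g := by exact_mod_cast hg1
  have hgg : (g : ℝ) ≤ g₀ := hg2.le.trans (min_le_left _ _)
  have hgh : (g : ℝ) ≤ h / 4 := hg2.le.trans ((min_le_right _ _).trans (min_le_left _ _))
  have hg11 : (g : ℝ) ≤ 1 := hg2.le.trans ((min_le_right _ _).trans (min_le_right _ _))
  have hNg : (al / 2) * g ≤ N 0 g := by
    have h1 := hact g hg0 hgg 1
    by_contra hc
    push Not at hc
    have h2 : ((range 1).filter fun i : ℕ => N (i * (g / (1 : ℕ))) ((i + 1) * (g / (1 : ℕ))) <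
      (al - min (al / 2) (1 / 2)) * ((g : ℝ) / (1 : ℕ))) = range 1 := by
      rw [Finset.filter_eq_self]
      intro i hi
      have hi0 : i = 0 := by
        rw [Finset.mem_range] at hi
        omega
      subst hi0
      have h3 : al / 2 ≤ al - min (al / 2) (1 / 2) := by
        have := min_le_left (al / 2) (1 / 2 : ℝ)
        linarith
      have h4 : (al / 2) * (g : ℝ) ≤ (al - min (al / 2) (1 / 2)) * g :=
        mul_le_mul_of_nonneg_right h3 hg1.le
      simp only [Nat.cast_zero, zero_mul, Nat.cast_one, div_one, zero_add, one_mul]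
      linarith
    rw [h2, Finset.card_range] at h1
    have h5 := min_le_right (al / 2) (1 / 2 : ℝ)
    push_cast at h1
    linarith
  -- activity
  obtain ⟨τ₁, hτ₁, J₁, hact1⟩ := hB 0 g le_rfl hg0.le (by exact_mod_cast hg11)
    ((al / 4) * g) (by positivity)
  obtain ⟨C, hC, hvel⟩ := lbT_vel n K
  -- the tolerances
  obtain ⟨τ, hτ0, hτ1, hτ2⟩ : ∃ τ : ℝ, 0 < τ ∧ 2 * τ ≤ τ₁ ∧ C * (C₀ * τ) ≤ h / 8 * Real.log 2 := by
    refine ⟨min (τ₁ / 2) (h / 8 * Real.log 2 / (C * (C₀ + 1))), by positivity, ?_, ?_⟩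
    · have := min_le_left (τ₁ / 2) (h / 8 * Real.log 2 / (C * (C₀ + 1)))
      linarith
    · have h1 := min_le_right (τ₁ / 2) (h / 8 * Real.log 2 / (C * (C₀ + 1)))
      have h2 : C * (C₀ * (h / 8 * Real.log 2 / (C * (C₀ + 1)))) ≤ h / 8 * Real.log 2 := by
        have e : C * (C₀ * (h / 8 * Real.log 2 / (C * (C₀ + 1)))) =
            (h / 8 * Real.log 2) * (C₀ / (C₀ + 1)) := by
          field_simp
        rw [e]
        refine mul_le_of_le_one_right (by positivity) ?_
        rw [div_le_one (by positivity)]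
        linarith
      refine le_trans ?_ h2
      exact mul_le_mul_of_nonneg_left (mul_le_mul_of_nonneg_left h1 hC₀) (by linarith)
  obtain ⟨J₂, hJ₂⟩ := exists_nat_ge (max (max (J₁ : ℝ) (Real.log 2 / τ))
    (max ((C + 2 * Real.log 2) / (h / 8 * Real.log 2))
      (Real.log 7 / ((al / 4) * g * Real.log 2) + 1)))
  refine ⟨τ, hτ0, J₂, fun J hJ F A hSt hlab => ?_⟩
  have hJJ := hJ₂.trans (by exact_mod_cast hJ : (J₂ : ℝ) ≤ J)
  have j1 : J₁ ≤ J := by
    have := ((le_max_left _ _).trans (le_max_left _ _)).trans hJJ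
    exact_mod_cast this
  have j2 : Real.log 2 ≤ τ * J := by
    have := ((le_max_right _ _).trans (le_max_left _ _)).trans hJJ
    rw [div_le_iff₀ hτ0] at this
    linarith
  have j3 : C + 2 * Real.log 2 ≤ h / 8 * Real.log 2 * J := by
    have := ((le_max_left _ _).trans (le_max_right _ _)).trans hJJ
    rw [div_le_iff₀ (by positivity)] at this
    linarith
  have j4 : Real.log 7 < (al / 4) * g * Real.log 2 * J := by
    have := ((le_max_right _ _).trans (le_max_right _ _)).trans hJJ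
    have h1 : Real.log 7 / ((al / 4) * g * Real.log 2) < J := by linarith
    rw [div_lt_iff₀ (by positivity)] at h1
    linarith
  have hJ0 : (0 : ℝ) ≤ J := Nat.cast_nonneg J
  obtain ⟨hA, hTm⟩ := htm τ J F A hτ0 hSt
  have hTm2 : (Fam.sub F A hA).Tm (C₀ * τ * J) :=
    Pool.FLF.sub_Tm (hTm (isLaw_cond F.isLaw hA))
  have hw1 : (⌊w * J⌋₊ : ℝ) ≤ w * J := Nat.floor_le (by positivity)
  have hw2 : ⌊w * J⌋₊ ≤ J := by
    have : (⌊w * J⌋₊ : ℝ) ≤ J := hw1.trans (by nlinarith)
    exact_mod_cast this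
  have hθ : C * (C₀ * τ * J + 1) + 2 * Real.log 2 ≤ h / 4 * Real.log 2 * J := by
    have : C * (C₀ * τ) * J ≤ h / 8 * Real.log 2 * J := mul_le_mul_of_nonneg_right hτ2 hJ0
    nlinarith
  have hJw : h * J ≤ (J : ℝ) - ⌊w * J⌋₊ := by
    have : h * J ≤ (1 - w) * J := mul_le_mul_of_nonneg_right (by linarith) hJ0
    linarith
  have hJw2 : h * J * Real.log 2 ≤ ((J : ℝ) - ⌊w * J⌋₊) * Real.log 2 :=
    mul_le_mul_of_nonneg_right hJw hl2.le
  have hpos4 : 0 ≤ h * J * Real.log 2 := by positivity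
  obtain ⟨B, hBA, hPB, hd⟩ := hvel J F k A hA ⌊w * J⌋₊ ⌊(w + h) * J⌋₊ (C₀ * τ * J) hw2
    (by positivity) hTm2 (by linarith) hlab
  have hB0 : 0 < Pe F.p B := by linarith
  have hStB : S.St τ₁ J F B := by
    refine S.mono hτ1 ?_
    have := S.res (τ := τ) (τ' := τ) hτ0.le hSt hBA (by
      have h1 : Real.exp (-(τ * J)) ≤ 1 / 2 := by
        rw [← Real.exp_log (by norm_num : (0 : ℝ) < 1 / 2)]
        refine Real.exp_le_exp.2 ?_
        rw [one_div, Real.log_inv]
        linarith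
      nlinarith [mul_le_mul_of_nonneg_right h1 hA.le])
    rwa [← two_mul] at this
  have hlow := hact1 J j1 F B hStB
  beta_reduce at hlow
  have hr1 : (⌊((g : ℚ) : ℝ) * J⌋₊ : ℝ) ≤ g * J := Nat.floor_le (by positivity)
  have hP1 : (w + h) * J - 1 < (⌊(w + h) * J⌋₊ : ℝ) := by
    have := Nat.lt_floor_add_one ((w + h) * (J : ℝ))
    linarith
  have hup := lbT_ent F k hB0 (r := ⌊((g : ℚ) : ℝ) * J⌋₊) (r₀ := ⌊((0 : ℚ) : ℝ) * J⌋₊)
    (δ := Real.exp (C * (C₀ * τ * J + 1)) * 2 ^ ⌊w * J⌋₊ / 2 ^ ⌊(w + h) * J⌋₊) (by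
      have e1 : ∀ r : ℕ, (2 : ℝ) ^ r = Real.exp (r * Real.log 2) := by
        intro r
        rw [Real.exp_nat_mul, Real.exp_log (by norm_num)]
      rw [e1, e1, e1, ← Real.exp_add, ← Real.exp_sub, ← Real.exp_add]
      refine Real.exp_le_one_iff.2 ?_
      have a1 : (⌊((g : ℚ) : ℝ) * J⌋₊ : ℝ) * Real.log 2 ≤ h / 4 * J * Real.log 2 :=
        mul_le_mul_of_nonneg_right (hr1.trans (mul_le_mul_of_nonneg_right hgh hJ0)) hl2.le
      have a2 : (⌊w * J⌋₊ : ℝ) * Real.log 2 ≤ w * J * Real.log 2 :=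
        mul_le_mul_of_nonneg_right hw1 hl2.le
      have a3 : ((w + h) * J - 1) * Real.log 2 ≤ (⌊(w + h) * J⌋₊ : ℝ) * Real.log 2 :=
        mul_le_mul_of_nonneg_right hP1.le hl2.le
      have a4 : 0 ≤ h * J * Real.log 2 := by positivity
      nlinarith) (fun ω ω' hω hω' hpt => hd ω ω' hω hω' hpt)
  have h5 : (al / 4) * g * Real.log 2 * J ≤ (N 0 g - al / 4 * g) * Real.log 2 * J := by
    have h6 : (al / 4) * g ≤ N 0 g - al / 4 * g := by linarith
    exact mul_le_mul_of_nonneg_right (mul_le_mul_of_nonneg_right h6 hl2.le) hJ0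
  exact absurd (j4.trans_le (h5.trans (hlow.trans hup))) (lt_irrefl _)

end Pool.GEN
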