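import Pool.Agent.H19.STAT.Abs

/-!
# The field `full` of a system, from exactness

The coordinates `1, …, n - 1` have the full entropy over the labels `c`, to `J` digits, given `c`,
the time and the side information. Then the natural digits of the coordinates `0, …, n - 1` are
full given `c`.
-/

set_option autoImplicit false

namespace Pool.STAT.FU

open Finset Real MvPolynomial
open Pool.Agent.H49.Ent Pool.Agent.H32.Dense Pool.STK

variable {Ω Γ S Λ : Type} [Fintype Ω] {q : Ω → ℝ}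

/-- Integers which are known up to a bounded error. -/
theorem CH_z (hq : IsLaw q) (X : Ω → ℤ) (W : Ω → S) {c : ℝ}
    (hX : ∀ ω ω', 0 < q ω → 0 < q ω' → W ω = W ω' → |((X ω - X ω' : ℤ) : ℝ)| ≤ c) :
    CH q X W ≤ Real.log (2 * c + 1) := by
  have h1 := CH_le_vec (d := 1) hq.nonneg hq.sum_one (fun ω _ => X ω) W (fun _ => c)
    (fun ω ω' h1 h2 h3 _ => hX ω ω' h1 h2 h3)
  rw [Ex_const hq.sum_one] at h1
  have h2 : CH q X W ≤ CH q (fun ω (_ : Fin 1) => X ω) W :=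
    CH_mono_left hq.nonneg fun ω ω' _ _ h => congrFun (Prod.ext_iff.mp h).1 0
  have h3 : ((1 : ℕ) : ℝ) * Real.log (2 * c + 1) = Real.log (2 * c + 1) := by norm_num
  linarith

/-- The digits of the first `k` coordinates. -/
noncomputable def pre (J : ℕ) (x : Ω → ℕ → ℝ) (k : ℕ) (ω : Ω) (i : ℕ) : ℤ :=
  if i < k then ⌊(2 : ℝ) ^ J * x ω i⌋ else 0

omit [Fintype Ω] in
theorem pre_near {J k : ℕ} {x : Ω → ℕ → ℝ} {ω : Ω} {i : ℕ} (hi : i < k) :
    |((pre J x k ω i : ℤ) : ℝ) / 2 ^ J - x ω i| ≤ 1 / 2 ^ J := by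
  unfold pre
  rw [if_pos hi]
  have hM : (0 : ℝ) < 2 ^ J := by positivity
  have h1 := Int.floor_le ((2 : ℝ) ^ J * x ω i)
  have h2 := Int.lt_floor_add_one ((2 : ℝ) ^ J * x ω i)
  have h3 : ((⌊(2 : ℝ) ^ J * x ω i⌋ : ℤ) : ℝ) / 2 ^ J - x ω i =
      (((⌊(2 : ℝ) ^ J * x ω i⌋ : ℤ) : ℝ) - 2 ^ J * x ω i) / 2 ^ J := by
    field_simp
  rw [h3, abs_div, abs_of_pos hM]
  refine div_le_div_of_nonneg_right ?_ hM.le
  rw [abs_le]
  constructor <;> linarith

/-- **Upper bound.** The digits of the first `k` coordinates, given the natural digits and the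
labels. -/
theorem up (hq : IsLaw q) {n J z e : ℕ} (x : Ω → ℕ → ℝ) (c : Ω → Γ) (P : Γ → ℕ → PN)
    (g : ℕ → ℕ) (hg : ∀ i < n, g i + z + e ≤ J)
    (lip : ∀ ω, 0 < q ω → ∀ i < n, ∀ b : ℕ → ℝ, (∀ j < i, |b j - x ω j| ≤ 1 / 2 ^ J) →
      |eval b (P (c ω) i) - eval (x ω) (P (c ω) i)| ≤ 2 ^ e / 2 ^ J) (k : ℕ) (hk : k ≤ n) :
    CH q (pre J x k) (fun ω => ((fun i : Fin n =>
      ⌊(2 : ℝ) ^ (g i + z) * (x ω i - eval (x ω) (P (c ω) i))⌋), c ω)) ≤
      ∑ i ∈ range k, (((J : ℝ) - g i - z) * Real.log 2 + Real.log 9) := by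
  induction k with
  | zero =>
    rw [Finset.sum_range_zero]
    refine le_of_eq (CH_eq_zero hq.nonneg ?_)
    intro ω ω' _ _ _
    funext i
    unfold pre
    simp
  | succ k ih =>
    have ih' := ih (by omega)
    rw [Finset.sum_range_succ]
    obtain ⟨W, hW⟩ : ∃ W : Ω → (Fin n → ℤ) × Γ, W = fun ω => ((fun i : Fin n =>
      ⌊(2 : ℝ) ^ (g i + z) * (x ω i - eval (x ω) (P (c ω) i))⌋), c ω) := ⟨_, rfl⟩
    rw [← hW] at ih' ⊢
    have hsplit : CH q (pre J x (k + 1)) W ≤ CH q (pre J x k) W +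
        CH q (fun ω => ⌊(2 : ℝ) ^ J * x ω k⌋) (fun ω => (pre J x k ω, W ω)) := by
      have h1 := CH_chain hq.nonneg (fun ω => ⌊(2 : ℝ) ^ J * x ω k⌋) (pre J x k) W
      have h2 : CH q (pre J x (k + 1)) W ≤
          CH q (fun ω => (⌊(2 : ℝ) ^ J * x ω k⌋, pre J x k ω)) W := by
        refine CH_mono_left hq.nonneg ?_
        intro ω ω' _ _ h
        simp only [Prod.mk.injEq] at h
        funext i
        have h3 := congrFun h.1.2 i
        unfold pre at h3 ⊢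
        by_cases hi : i < k
        · rw [if_pos hi, if_pos hi] at h3
          rw [if_pos (by omega), if_pos (by omega)]
          exact h3
        · by_cases hi2 : i = k
          · subst hi2
            rw [if_pos (by omega), if_pos (by omega)]
            exact h.1.1
          · rw [if_neg (by omega), if_neg (by omega)]
      linarith
    refine hsplit.trans (add_le_add ih' ?_)
    have hk' : k < n := by omega
    have hgk := hg k hk'
    -- the range of one coordinate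
    have hM : (0 : ℝ) < 2 ^ J := by positivity
    have hN : (0 : ℝ) < 2 ^ (g k + z) := by positivity
    have hpow : (2 : ℝ) ^ J = 2 ^ (g k + z) * 2 ^ (J - (g k + z)) := by
      rw [← pow_add]
      congr 1
      omega
    have h1le : (1 : ℝ) ≤ 2 ^ (J - (g k + z)) := one_le_pow₀ (by norm_num)
    have hele : (2 : ℝ) ^ e ≤ 2 ^ (J - (g k + z)) :=
      pow_le_pow_right₀ (by norm_num) (by omega)
    refine (CH_z hq _ _ (c := 4 * 2 ^ (J - (g k + z))) ?_).trans ?_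
    · intro ω ω' hω hω' h
      simp only [Prod.mk.injEq, hW] at h
      have hc : c ω = c ω' := h.2.2
      have hnat := congrFun h.2.1 ⟨k, hk'⟩
      simp only at hnat
      obtain ⟨b, hb⟩ : ∃ b : ℕ → ℝ, ∀ j, b j = ((pre J x k ω j : ℤ) : ℝ) / 2 ^ J :=
        ⟨_, fun _ => rfl⟩
      have l1 := lip ω hω k hk' b (fun j hj => by rw [hb]; exact pre_near hj)
      have l2 := lip ω' hω' k hk' b (fun j hj => by
        rw [hb, h.1]
        exact pre_near hj)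
      rw [← hc] at l2 hnat
      -- the heights
      have f1 := Int.floor_le ((2 : ℝ) ^ (g k + z) * (x ω k - eval (x ω) (P (c ω) k)))
      have f2 := Int.lt_floor_add_one ((2 : ℝ) ^ (g k + z) * (x ω k - eval (x ω) (P (c ω) k)))
      have f3 := Int.floor_le ((2 : ℝ) ^ (g k + z) * (x ω' k - eval (x ω') (P (c ω) k)))
      have f4 := Int.lt_floor_add_one
        ((2 : ℝ) ^ (g k + z) * (x ω' k - eval (x ω') (P (c ω) k)))
      rw [hnat] at f1 f2
      have hh : |(2 : ℝ) ^ (g k + z) * ((x ω k - eval (x ω) (P (c ω) k)) -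
          (x ω' k - eval (x ω') (P (c ω) k)))| ≤ 1 := by
        rw [abs_le]
        constructor <;> nlinarith
      have hh2 : |(2 : ℝ) ^ J * ((x ω k - eval (x ω) (P (c ω) k)) -
          (x ω' k - eval (x ω') (P (c ω) k)))| ≤ 2 ^ (J - (g k + z)) := by
        rw [hpow, mul_comm ((2 : ℝ) ^ (g k + z)), mul_assoc, abs_mul,
          abs_of_pos (by positivity : (0 : ℝ) < 2 ^ (J - (g k + z)))]
        calc _ ≤ (2 : ℝ) ^ (J - (g k + z)) * 1 :=
              mul_le_mul_of_nonneg_left hh (by positivity)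
          _ = _ := mul_one _
      have l3 : |(2 : ℝ) ^ J * (eval (x ω) (P (c ω) k) - eval (x ω') (P (c ω) k))| ≤
          2 * 2 ^ e := by
        have e1 : eval (x ω) (P (c ω) k) - eval (x ω') (P (c ω) k) =
            (eval b (P (c ω) k) - eval (x ω') (P (c ω) k)) -
            (eval b (P (c ω) k) - eval (x ω) (P (c ω) k)) := by ring
        have e2 : |eval (x ω) (P (c ω) k) - eval (x ω') (P (c ω) k)| ≤
            2 ^ e / 2 ^ J + 2 ^ e / 2 ^ J := by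
          rw [e1, abs_le]
          rw [abs_le] at l1 l2
          constructor <;> linarith [l1.1, l1.2, l2.1, l2.2]
        rw [abs_mul, abs_of_pos hM]
        calc _ ≤ (2 : ℝ) ^ J * (2 ^ e / 2 ^ J + 2 ^ e / 2 ^ J) :=
              mul_le_mul_of_nonneg_left e2 hM.le
          _ = 2 * 2 ^ e := by field_simp; ring
      have hx : |(2 : ℝ) ^ J * x ω k - 2 ^ J * x ω' k| ≤ 3 * 2 ^ (J - (g k + z)) := by
        rw [abs_le] at hh2 l3 ⊢
        constructor <;> nlinarith [hh2.1, hh2.2, l3.1, l3.2]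
      have f5 := Int.floor_le ((2 : ℝ) ^ J * x ω k)
      have f6 := Int.lt_floor_add_one ((2 : ℝ) ^ J * x ω k)
      have f7 := Int.floor_le ((2 : ℝ) ^ J * x ω' k)
      have f8 := Int.lt_floor_add_one ((2 : ℝ) ^ J * x ω' k)
      push_cast
      rw [abs_le] at hx ⊢
      constructor <;> linarith [hx.1, hx.2]
    · have h9 : 2 * (4 * (2 : ℝ) ^ (J - (g k + z))) + 1 ≤ 9 * 2 ^ (J - (g k + z)) := by linarith
      refine (Real.log_le_log (by positivity) h9).trans (le_of_eq ?_)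
      rw [Real.log_mul (by norm_num) (by positivity), Real.log_pow, Nat.cast_sub (by omega)]
      push_cast
      ring

/-- **Time.** The digits of the time beyond the window are uniform given a function of the line
and of the window. -/
theorem time_lb (hq : IsLaw q) {J w₀ w : ℕ} (h0 : w₀ ≤ w) (hw : w ≤ J) (T : Ω → ℕ)
    (ln : Ω → Λ) (c : Ω → Γ) (hln : Det q ln (fun ω => T ω / 2 ^ (J - w₀)))
    (hc : Det q (fun ω => (ln ω, T ω / 2 ^ (J - w))) c) {e : ℝ}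
    (ht : ((J - w₀ : ℕ) : ℝ) * Real.log 2 - e ≤ CH q T ln) :
    ((J : ℝ) - w) * Real.log 2 - e ≤ CH q T c := by
  have h1 : CH q T (fun ω => (ln ω, T ω / 2 ^ (J - w))) ≤ CH q T c :=
    CH_mono_cond hq.nonneg hc
  have h2 : CH q T ln ≤ CH q (fun ω => T ω / 2 ^ (J - w)) ln +
      CH q T (fun ω => (T ω / 2 ^ (J - w), ln ω)) := CH_le_add hq.nonneg _ _ _
  have h3 : CH q T (fun ω => (T ω / 2 ^ (J - w), ln ω)) =
      CH q T (fun ω => (ln ω, T ω / 2 ^ (J - w))) := by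
    refine CH_congr hq.nonneg (fun ω ω' _ _ h => (Prod.ext_iff.1 h).1)
      (fun ω ω' _ _ h => (Prod.ext_iff.1 h).1) ?_ ?_
    · intro ω ω' _ _ h
      simp only [Prod.mk.injEq] at h ⊢
      exact ⟨h.2, h.1⟩
    · intro ω ω' _ _ h
      simp only [Prod.mk.injEq] at h ⊢
      exact ⟨h.2, h.1⟩
  have h4 : CH q (fun ω => T ω / 2 ^ (J - w)) ln ≤ ((w - w₀ : ℕ) : ℝ) * Real.log 2 := by
    classical
    have hdiv : ∀ ω, T ω / 2 ^ (J - w₀) = T ω / 2 ^ (J - w) / 2 ^ (w - w₀) := by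
      intro ω
      rw [Nat.div_div_eq_div_mul, ← pow_add]
      congr 2
      omega
    obtain ⟨ψ, hψ⟩ : ∃ ψ : Λ → ℕ, ∀ ω, 0 < q ω → ψ (ln ω) = T ω / 2 ^ (J - w₀) := by
      refine ⟨fun l => if h : ∃ ω, 0 < q ω ∧ ln ω = l then T h.choose / 2 ^ (J - w₀) else 0,
        fun ω hω => ?_⟩
      have h : ∃ ω', 0 < q ω' ∧ ln ω' = ln ω := ⟨ω, hω, rfl⟩
      beta_reduce
      rw [dif_pos h]
      exact hln _ _ h.choose_spec.1 hω h.choose_spec.2
    have h5 := CH_le_card hq.nonneg hq.sum_one (fun ω => T ω / 2 ^ (J - w)) ln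
      (fun l => Finset.Ico (ψ l * 2 ^ (w - w₀)) ((ψ l + 1) * 2 ^ (w - w₀))) (by
        intro ω hω
        rw [hψ ω hω, hdiv, Finset.mem_Ico]
        refine ⟨Nat.div_mul_le_self _ _, ?_⟩
        exact Nat.lt_mul_of_div_lt (Nat.lt_succ_self _) (by positivity))
    refine h5.trans (le_of_eq ?_)
    have e1 : (fun ω => Real.log ((Finset.Ico (ψ (ln ω) * 2 ^ (w - w₀))
        ((ψ (ln ω) + 1) * 2 ^ (w - w₀))).card : ℝ)) =
        fun _ => ((w - w₀ : ℕ) : ℝ) * Real.log 2 := by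
      funext ω
      rw [Nat.card_Ico]
      have e2 : (ψ (ln ω) + 1) * 2 ^ (w - w₀) - ψ (ln ω) * 2 ^ (w - w₀) = 2 ^ (w - w₀) := by
        rw [add_mul, one_mul, Nat.add_sub_cancel_left]
      rw [e2]
      push_cast
      rw [Real.log_pow]
    rw [e1, Ex_const hq.sum_one]
  have h5 : ((J - w₀ : ℕ) : ℝ) = (J : ℝ) - w₀ := Nat.cast_sub (by omega)
  have h6 : ((w - w₀ : ℕ) : ℝ) = (w : ℝ) - w₀ := Nat.cast_sub h0
  rw [h5] at ht
  rw [h6] at h4
  nlinarith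

/-- **Natural digits are full.** -/
theorem full_of_exact (hq : IsLaw q) {n J z e : ℕ} (hn : 1 ≤ n) (T : Ω → ℕ) (x : Ω → ℕ → ℝ)
    (c : Ω → Γ) (Z : Ω → S) (P : Γ → ℕ → PN) (g : ℕ → ℕ)
    (hx0 : ∀ ω, x ω 0 = (T ω : ℝ) / 2 ^ J) (hg : ∀ i < n, g i + z + e ≤ J)
    (lip : ∀ ω, 0 < q ω → ∀ i < n, ∀ b : ℕ → ℝ, (∀ j < i, |b j - x ω j| ≤ 1 / 2 ^ J) →
      |eval b (P (c ω) i) - eval (x ω) (P (c ω) i)| ≤ 2 ^ e / 2 ^ J) {e₁ e₂ : ℝ}
    (time : ((J : ℝ) - g 0) * Real.log 2 - e₁ ≤ CH q T c)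
    (exact : (∑ i ∈ Ico 1 n, ((J : ℝ) - g i)) * Real.log 2 - e₂ ≤
      CH q (fun ω (i : Fin n) => if (i : ℕ) = 0 then (0 : ℤ) else ⌊(2 : ℝ) ^ J * x ω i⌋)
        (fun ω => (c ω, (T ω, Z ω)))) :
    n * (z * Real.log 2) - (e₁ + e₂ + n * Real.log 9) ≤
      CH q (fun ω (i : Fin n) =>
        ⌊(2 : ℝ) ^ (g i + z) * (x ω i - eval (x ω) (P (c ω) i))⌋) c := by
  have hM : (0 : ℝ) < 2 ^ J := by positivity
  have hT : ∀ ω, ⌊(2 : ℝ) ^ J * x ω 0⌋ = (T ω : ℤ) := by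
    intro ω
    rw [hx0, mul_div_cancel₀ _ hM.ne', Int.floor_natCast]
  -- lower bound for all the digits
  have h1 : CH q T c + CH q (fun ω (i : Fin n) =>
      if (i : ℕ) = 0 then (0 : ℤ) else ⌊(2 : ℝ) ^ J * x ω i⌋) (fun ω => (T ω, c ω)) =
      CH q (fun ω => ((fun (i : Fin n) =>
        if (i : ℕ) = 0 then (0 : ℤ) else ⌊(2 : ℝ) ^ J * x ω i⌋), T ω)) c :=
    (CH_chain hq.nonneg _ _ _).symm
  have h2 : CH q (fun ω => ((fun (i : Fin n) =>
        if (i : ℕ) = 0 then (0 : ℤ) else ⌊(2 : ℝ) ^ J * x ω i⌋), T ω)) c ≤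
      CH q (pre J x n) c := by
    refine CH_mono_left hq.nonneg ?_
    intro ω ω' _ _ h
    simp only [Prod.mk.injEq] at h
    refine Prod.ext ?_ ?_
    · funext i
      have h3 := congrFun h.1 i
      unfold pre at h3
      rw [if_pos i.2, if_pos i.2] at h3
      show (if (i : ℕ) = 0 then (0 : ℤ) else ⌊(2 : ℝ) ^ J * x ω i⌋) =
        if (i : ℕ) = 0 then (0 : ℤ) else ⌊(2 : ℝ) ^ J * x ω' i⌋
      by_cases hi : (i : ℕ) = 0
      · rw [if_pos hi, if_pos hi]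
      · rw [if_neg hi, if_neg hi]
        exact h3
    · have h3 := congrFun h.1 0
      unfold pre at h3
      rw [if_pos (by omega), if_pos (by omega), hT, hT] at h3
      exact_mod_cast h3
  have h3 : CH q (fun ω (i : Fin n) =>
      if (i : ℕ) = 0 then (0 : ℤ) else ⌊(2 : ℝ) ^ J * x ω i⌋) (fun ω => (c ω, (T ω, Z ω))) ≤
      CH q (fun ω (i : Fin n) =>
      if (i : ℕ) = 0 then (0 : ℤ) else ⌊(2 : ℝ) ^ J * x ω i⌋) (fun ω => (T ω, c ω)) := by
    refine CH_mono_cond hq.nonneg ?_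
    intro ω ω' _ _ h
    simp only [Prod.mk.injEq] at h ⊢
    exact ⟨h.2.1, h.1⟩
  -- upper bound
  have h4 := up hq x c P g hg lip n le_rfl
  obtain ⟨N, hN⟩ : ∃ N : Ω → Fin n → ℤ, N = fun ω (i : Fin n) =>
        ⌊(2 : ℝ) ^ (g i + z) * (x ω i - eval (x ω) (P (c ω) i))⌋ := ⟨_, rfl⟩
  have h5 : CH q (pre J x n) c ≤ CH q N c + CH q (pre J x n) (fun ω => (N ω, c ω)) :=
    CH_le_add hq.nonneg _ _ _
  rw [← hN]
  have h6 : CH q (pre J x n) (fun ω => (N ω, c ω)) ≤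
      ∑ i ∈ range n, (((J : ℝ) - g i - z) * Real.log 2 + Real.log 9) := by
    rw [hN]
    exact h4
  have h7 : ∑ i ∈ range n, (((J : ℝ) - g i - z) * Real.log 2 + Real.log 9) =
      (∑ i ∈ Ico 1 n, ((J : ℝ) - g i)) * Real.log 2 + ((J : ℝ) - g 0) * Real.log 2 -
        n * (z * Real.log 2) + n * Real.log 9 := by
    have e1 : ∑ i ∈ range n, ((J : ℝ) - g i) = ((J : ℝ) - g 0) + ∑ i ∈ Ico 1 n, ((J : ℝ) - g i) := by
      rw [Finset.range_eq_Ico, Finset.sum_eq_sum_Ico_succ_bot (by omega)]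
    have e2 : ∑ i ∈ range n, (((J : ℝ) - g i - z) * Real.log 2 + Real.log 9) =
        (∑ i ∈ range n, ((J : ℝ) - g i)) * Real.log 2 - n * (z * Real.log 2) +
          n * Real.log 9 := by
      rw [Finset.sum_add_distrib, Finset.sum_const, Finset.card_range, nsmul_eq_mul,
        Finset.sum_mul]
      have e3 : ∀ i ∈ range n, ((J : ℝ) - g i - z) * Real.log 2 =
          ((J : ℝ) - g i) * Real.log 2 - z * Real.log 2 := fun i _ => by ring
      rw [Finset.sum_congr rfl e3, Finset.sum_sub_distrib, Finset.sum_const, Finset.card_range,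
        nsmul_eq_mul]
    rw [e2, e1]
    ring
  linarith

/-- **The field `full`.** -/
theorem ok0_full (D : NDat) {n J w₀ z k : ℕ} {q : D.Ω → ℝ} (hq : IsLaw q) (hn : 1 ≤ n)
    (hk : w₀ + k * z ≤ J) (hX : ∀ ω, D.X ω 0 = (D.T ω : ℝ) / 2 ^ J)
    (ln_w : Det q D.ln (fun ω => D.T ω / 2 ^ (J - w₀))) {e₁ : ℝ}
    (time : ((J - w₀ : ℕ) : ℝ) * Real.log 2 - e₁ ≤ CH q D.T D.ln)
    (c_wn : Det q (D.wn J (w₀ + k * z)) (D.c k))
    (hg0 : D.g k 0 = w₀ + k * z) {e : ℕ} (hg : ∀ i < n, D.g k i + z + e ≤ J)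
    (lip : ∀ ω, 0 < q ω → ∀ i < n, ∀ b : ℕ → ℝ, (∀ j < i, |b j - D.X ω j| ≤ 1 / 2 ^ J) →
      |eval b (D.P k (D.c k ω) i) - eval (D.X ω) (D.P k (D.c k ω) i)| ≤ 2 ^ e / 2 ^ J)
    (Z : D.Ω → S) {e₂ : ℝ}
    (exact : (∑ i ∈ Ico 1 n, ((J : ℝ) - D.g k i)) * Real.log 2 - e₂ ≤
      CH q (fun ω (i : Fin n) => if (i : ℕ) = 0 then (0 : ℤ) else ⌊(2 : ℝ) ^ J * D.X ω i⌋)
        (fun ω => (D.c k ω, (D.T ω, Z ω)))) :
    n * (z * Real.log 2) - (e₁ + e₂ + n * Real.log 9) ≤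
      CH q (fun ω (i : Fin n) => ⌊(2 : ℝ) ^ (D.g k i + z) * D.rh k ω i⌋) (D.c k) := by
  refine full_of_exact hq hn D.T D.X (D.c k) Z (D.P k) (D.g k) hX hg lip ?_ exact
  rw [hg0]
  have h1 := time_lb hq (Nat.le_add_right w₀ (k * z)) hk D.T D.ln (D.c k) ln_w
    (by
      intro ω ω' a a' h
      refine c_wn ω ω' a a' ?_
      simpa [NDat.wn] using h) time
  push_cast at h1 ⊢
  exact h1

end Pool.STAT.FU
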